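import Mathlib
import Pool.Agent.V11191.BS.Gauss

/-!
# MP_bdb089_mp: a beam-splitter state of Fock-bounded pure states which is not extreme
-/

set_option autoImplicit false

namespace Pool.Agent.Results.MP_bdb089_mp.NotExtreme

open MeasureTheory Complex Pool.Agent.V11191.BS
open scoped ComplexOrder

/-- The Hilbert space `L²(ℝ)` of one mode. -/
abbrev L2 : Type := Lp ℂ 2 (volume : Measure ℝ)

/-- The `n`-th Hermite function `(n! √π)^(-1/2) He_n(√2 x) exp(-x²/2)`. -/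
noncomputable def fockFun (n : ℕ) (x : ℝ) : ℂ :=
  (((Real.sqrt (n.factorial * Real.sqrt Real.pi))⁻¹ : ℝ) : ℂ) *
    ((Polynomial.aeval (Real.sqrt 2 * x) (Polynomial.hermite n) : ℝ) : ℂ) * gf 0 x

lemma memLp_poly (P : Polynomial ℝ) : MemLp (fun x : ℝ => ((P.eval x : ℝ) : ℂ) * gf 0 x) 2 := by
  induction P using Polynomial.induction_on' with
  | add P Q hP hQ =>
    refine (hP.add hQ).ae_eq (Filter.Eventually.of_forall fun x => ?_)
    simp only [Pi.add_apply, Polynomial.eval_add, ofReal_add]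
    ring
  | monomial n a =>
    refine ((memLp_gf n).const_mul (a : ℂ)).ae_eq (Filter.Eventually.of_forall fun x => ?_)
    simp only [Polynomial.eval_monomial, gf]
    push_cast
    ring

lemma memLp_fockFun (n : ℕ) : MemLp (fockFun n) 2 := by
  have h := (memLp_poly (((Polynomial.hermite n).map (Int.castRingHom ℝ)).comp
    (Polynomial.C (Real.sqrt 2) * Polynomial.X))).const_mul
      (((Real.sqrt (n.factorial * Real.sqrt Real.pi))⁻¹ : ℝ) : ℂ)
  refine h.ae_eq (Filter.Eventually.of_forall fun x => ?_)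
  simp only [fockFun, Polynomial.eval_comp, Polynomial.eval_mul, Polynomial.eval_C,
    Polynomial.eval_X, Polynomial.eval_map, Polynomial.aeval_def]
  rw [mul_assoc]
  rfl

/-- The Fock (number) state `|n⟩`. -/
noncomputable def fock (n : ℕ) : L2 := (memLp_fockFun n).toLp (fockFun n)

/-- A vector is Fock-bounded if it is a finite linear combination of Fock states. -/
def FockBounded (ψ : L2) : Prop := ψ ∈ Submodule.span ℂ (Set.range fock)

/-- The function `(1/π) ∫ f(x+y) conj(g(x-y)) e^{-2ipy} dy`, i.e. the Wigner transform of the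
operator `|f⟩⟨g|`. -/
noncomputable def wig (f g : L2) (x p : ℝ) : ℂ :=
  (1 / (Real.pi : ℂ)) * ∫ y : ℝ, f (x + y) * starRingEnd ℂ (g (x - y)) * cexp (-2 * I * p * y)

/-- A density operator: positive, with trace one (in every Hilbert basis). -/
def IsState (ρ : L2 →L[ℂ] L2) : Prop :=
  ρ.IsPositive ∧ ∀ (ι : Type) (b : HilbertBasis ι ℂ L2),
    HasSum (fun i => (inner ℂ (b i) (ρ (b i)) : ℂ)) 1

/-- `W` is the Wigner function of the operator `ρ`: the kernel of `ρ` is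
`⟨s|ρ|s'⟩ = ∑ᵢ (ρ bᵢ)(s) conj(bᵢ(s'))` for every Hilbert basis `b`, so
`W(x,p) = (1/π) ∫ ⟨x+y|ρ|x-y⟩ e^{-2ipy} dy = ∑ᵢ wig (ρ bᵢ) bᵢ x p`. -/
def IsWigner (ρ : L2 →L[ℂ] L2) (W : ℝ → ℝ → ℂ) : Prop :=
  ∀ (ι : Type) (b : HilbertBasis ι ℂ L2) (x p : ℝ),
    HasSum (fun i => wig (ρ (b i)) (b i) x p) (W x p)

/-- The convex set `𝒟₊` of states with nonnegative Wigner function. -/
def DPlus : Set (L2 →L[ℂ] L2) :=
  {ρ | IsState ρ ∧ ∃ W : ℝ → ℝ → ℝ, IsWigner ρ (fun x p => (W x p : ℂ)) ∧ ∀ x p, 0 ≤ W x p}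

/-- The wave function of `U (ψ ⊗ φ)`, where the 50:50 beam splitter
`U = exp((π/4)(a†b - ab†))` acts by `(UΨ)(x,s) = Ψ((x-s)/√2, (x+s)/√2)`. -/
noncomputable def outAmp (ψ φ : L2) (x s : ℝ) : ℂ :=
  ψ ((x - s) / Real.sqrt 2) * φ ((x + s) / Real.sqrt 2)

/-- `σ = Tr₂ [U (|ψ⟩⟨ψ| ⊗ |φ⟩⟨φ|) U†]`, i.e. the kernel of `σ` is
`∫ (U(ψ⊗φ))(x,s) conj (U(ψ⊗φ))(x',s) ds`. -/
def IsBeamSplitterState (ψ φ : L2) (σ : L2 →L[ℂ] L2) : Prop :=
  ∀ f g : L2, (inner ℂ f (σ g) : ℂ) =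
    ∫ s : ℝ, (∫ x : ℝ, starRingEnd ℂ (f x) * outAmp ψ φ x s) *
      starRingEnd ℂ (∫ x : ℝ, starRingEnd ℂ (g x) * outAmp ψ φ x s)

/-! ### The displaced parity operators -/

lemma memLp_disp (u : L2) (x p : ℝ) :
    MemLp (fun s : ℝ => cexp (2 * I * p * (s - x)) * u (2 * x - s)) 2 := by
  have hmp : MeasurePreserving (fun s : ℝ => 2 * x - s) volume volume :=
    Measure.measurePreserving_sub_left volume (2 * x)
  have h1 : MemLp (fun s : ℝ => u (2 * x - s)) 2 := (Lp.memLp u).comp_measurePreserving hmp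
  refine h1.mono ?_ (Filter.Eventually.of_forall fun s => ?_)
  · exact (Continuous.aestronglyMeasurable (by fun_prop)).mul h1.aestronglyMeasurable
  · rw [norm_mul, Complex.norm_exp]
    have : (2 * I * p * ((s : ℂ) - x)).re = 0 := by
      simp
    rw [this, Real.exp_zero, one_mul]

/-- The displaced parity operator (on vectors). -/
noncomputable def disp (u : L2) (x p : ℝ) : L2 := (memLp_disp u x p).toLp _

lemma wig_eq (f g : L2) (x p : ℝ) : wig f g x p = (1 / (Real.pi : ℂ)) * inner ℂ g (disp f x p) := by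
  unfold wig
  congr 1
  rw [MeasureTheory.L2.inner_def]
  have h1 : ∫ a : ℝ, (inner ℂ (g a) ((disp f x p : L2) a) : ℂ) =
      ∫ s : ℝ, cexp (2 * I * p * (s - x)) * f (2 * x - s) * starRingEnd ℂ (g s) := by
    refine integral_congr_ae ?_
    filter_upwards [(memLp_disp f x p).coeFn_toLp] with s hs
    rw [disp, hs, RCLike.inner_apply]
  rw [h1, ← integral_sub_left_eq_self (fun s : ℝ => cexp (2 * I * p * (s - x)) * f (2 * x - s) *
    starRingEnd ℂ (g s)) volume x]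
  refine integral_congr_ae (Filter.Eventually.of_forall fun y => ?_)
  simp only
  have e1 : 2 * x - (x - y) = x + y := by ring
  have e2 : (2 * I * p * (((x - y : ℝ) : ℂ) - x)) = -2 * I * p * y := by push_cast; ring
  rw [e1, e2]
  ring

lemma ae_comp_sub {u v : ℝ → ℂ} (h : u =ᵐ[volume] v) (c : ℝ) :
    (fun s : ℝ => u (c - s)) =ᵐ[volume] fun s => v (c - s) :=
  (Measure.measurePreserving_sub_left volume c).quasiMeasurePreserving.ae_eq_comp h

lemma disp_add (u v : L2) (x p : ℝ) : disp (u + v) x p = disp u x p + disp v x p := by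
  apply Lp.ext
  filter_upwards [(memLp_disp (u + v) x p).coeFn_toLp, (memLp_disp u x p).coeFn_toLp,
    (memLp_disp v x p).coeFn_toLp, Lp.coeFn_add (disp u x p) (disp v x p),
    ae_comp_sub (Lp.coeFn_add u v) (2 * x)] with s h1 h2 h3 h4 h5
  rw [h4, Pi.add_apply]
  unfold disp
  rw [h1, h2, h3, h5, Pi.add_apply]
  ring

lemma disp_smul (c : ℂ) (u : L2) (x p : ℝ) : disp (c • u) x p = c • disp u x p := by
  apply Lp.ext
  filter_upwards [(memLp_disp (c • u) x p).coeFn_toLp, (memLp_disp u x p).coeFn_toLp,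
    Lp.coeFn_smul c (disp u x p),
    ae_comp_sub (Lp.coeFn_smul c u) (2 * x)] with s h1 h2 h4 h5
  rw [h4, Pi.smul_apply]
  unfold disp
  rw [h1, h2, h5, Pi.smul_apply, smul_eq_mul, smul_eq_mul]
  ring

lemma wig_add_left (f f' g : L2) (x p : ℝ) : wig (f + f') g x p = wig f g x p + wig f' g x p := by
  simp only [wig_eq, disp_add, inner_add_right]; ring

lemma wig_smul_left (c : ℂ) (f g : L2) (x p : ℝ) : wig (c • f) g x p = c * wig f g x p := by
  simp only [wig_eq, disp_smul, inner_smul_right]; ring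

lemma wig_add_right (f g g' : L2) (x p : ℝ) : wig f (g + g') x p = wig f g x p + wig f g' x p := by
  simp only [wig_eq, inner_add_left]; ring

lemma wig_smul_right (c : ℂ) (f g : L2) (x p : ℝ) :
    wig f (c • g) x p = starRingEnd ℂ c * wig f g x p := by
  simp only [wig_eq, inner_smul_left]; ring

/-! ### Wigner functions and traces of finite-rank operators -/

/-- `|u⟩⟨u|` -/
noncomputable def rk (u : L2) : L2 →L[ℂ] L2 := (innerSL ℂ u).smulRight u

lemma rk_apply (u f : L2) : rk u f = (inner ℂ u f : ℂ) • u := rfl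

lemma isPositive_rk (u : L2) : (rk u).IsPositive := by
  have := InnerProductSpace.isPositive_rankOne_self (𝕜 := ℂ) u
  rwa [InnerProductSpace.rankOne_def] at this

lemma hasSum_trace_rk (u : L2) {ι : Type} (b : HilbertBasis ι ℂ L2) :
    HasSum (fun i => (inner ℂ (b i) (rk u (b i)) : ℂ)) (inner ℂ u u) := by
  have h := b.hasSum_inner_mul_inner u u
  have e : (fun i => (inner ℂ (b i) (rk u (b i)) : ℂ)) =
      fun i => (inner ℂ u (b i) : ℂ) * inner ℂ (b i) u := by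
    ext i; rw [rk_apply, inner_smul_right]
  rw [e]; exact h

lemma isWigner_rk (u : L2) : IsWigner (rk u) (fun x p => wig u u x p) := by
  intro ι b x p
  have h := (b.hasSum_inner_mul_inner u (disp u x p)).mul_left (1 / (Real.pi : ℂ))
  rw [← wig_eq] at h
  have e : (fun i => wig (rk u (b i)) (b i) x p) =
      fun i => (1 / (Real.pi : ℂ)) * ((inner ℂ u (b i) : ℂ) * inner ℂ (b i) (disp u x p)) := by
    ext i
    rw [rk_apply, wig_smul_left, wig_eq]; ring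
  rw [e]; exact h

lemma IsWigner.add {ρ ρ' : L2 →L[ℂ] L2} {W W' : ℝ → ℝ → ℂ} (h : IsWigner ρ W)
    (h' : IsWigner ρ' W') : IsWigner (ρ + ρ') (fun x p => W x p + W' x p) := by
  intro ι b x p
  have e : (fun i => wig ((ρ + ρ') (b i)) (b i) x p) =
      fun i => wig (ρ (b i)) (b i) x p + wig (ρ' (b i)) (b i) x p := by
    ext i
    rw [add_apply, wig_add_left]
  rw [e]; exact (h ι b x p).add (h' ι b x p)

lemma IsWigner.smul {ρ : L2 →L[ℂ] L2} {W : ℝ → ℝ → ℂ} (c : ℂ) (h : IsWigner ρ W) :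
    IsWigner (c • ρ) (fun x p => c * W x p) := by
  intro ι b x p
  have e : (fun i => wig ((c • ρ) (b i)) (b i) x p) =
      fun i => c * wig (ρ (b i)) (b i) x p := by
    ext i
    rw [smul_apply, wig_smul_left]
  rw [e]; exact (h ι b x p).mul_left c

/-! ### The three-dimensional space spanned by `exp(-x²/2)`, `x exp(-x²/2)`, `x² exp(-x²/2)` -/

/-- `x^k exp(-x²/2)` as an element of `L²`. -/
noncomputable def g (k : ℕ) : L2 := (memLp_gf k).toLp (gf k)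

lemma g_ae (k : ℕ) : (g k : ℝ → ℂ) =ᵐ[volume] gf k := (memLp_gf k).coeFn_toLp

lemma gf_conj (k : ℕ) (x : ℝ) : starRingEnd ℂ (gf k x) = gf k x := by
  unfold gf
  have e : (-(x : ℂ) ^ 2 / 2) = ((-x ^ 2 / 2 : ℝ) : ℂ) := by push_cast; ring
  rw [map_mul, map_pow, Complex.conj_ofReal, ← Complex.exp_conj, e, Complex.conj_ofReal]

lemma inner_g (j k : ℕ) : (inner ℂ (g j) (g k) : ℂ) = mo (j + k) 0 := by
  rw [MeasureTheory.L2.inner_def]
  unfold mo
  refine integral_congr_ae ?_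
  filter_upwards [g_ae j, g_ae k] with x hj hk
  rw [RCLike.inner_apply, hj, hk, gf_conj]
  unfold gf mf
  have e : cexp (-(x : ℂ) ^ 2 - 2 * I * (0 : ℝ) * x) =
      cexp (-(x : ℂ) ^ 2 / 2) * cexp (-(x : ℂ) ^ 2 / 2) := by
    rw [← Complex.exp_add]; congr 1; push_cast; ring
  rw [e, pow_add]
  ring

lemma mo_zero_zero : mo 0 0 = (Real.sqrt Real.pi : ℝ) := by
  rw [mo_zero]; simp

lemma wig_g (j k : ℕ) (x p : ℝ) : wig (g j) (g k) x p =
    (1 / (Real.pi : ℂ)) * cexp (-(x : ℂ) ^ 2) *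
      ∫ y : ℝ, ((x : ℂ) + y) ^ j * ((x : ℂ) - y) ^ k * mf 0 p y := by
  unfold wig
  have hmain : ∫ y : ℝ, (g j : ℝ → ℂ) (x + y) * starRingEnd ℂ ((g k : ℝ → ℂ) (x - y)) *
      cexp (-2 * I * p * y) = ∫ y : ℝ, cexp (-(x : ℂ) ^ 2) *
        (((x : ℂ) + y) ^ j * ((x : ℂ) - y) ^ k * mf 0 p y) := ?_
  · rw [hmain, integral_const_mul]; ring
  refine integral_congr_ae ?_
  have h1 : (fun y : ℝ => (g j : ℝ → ℂ) (x + y)) =ᵐ[volume] fun y => gf j (x + y) :=
    (measurePreserving_add_left volume x).quasiMeasurePreserving.ae_eq_comp (g_ae j)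
  filter_upwards [h1, ae_comp_sub (g_ae k) x] with y h1 h2
  rw [h1, h2, gf_conj]
  unfold gf mf
  have e : cexp (-(((x + y : ℝ)) : ℂ) ^ 2 / 2) * cexp (-(((x - y : ℝ)) : ℂ) ^ 2 / 2) *
      cexp (-2 * I * p * y) = cexp (-(x : ℂ) ^ 2) * cexp (-(y : ℂ) ^ 2 - 2 * I * p * y) := by
    rw [← Complex.exp_add, ← Complex.exp_add, ← Complex.exp_add]; congr 1; push_cast; ring
  calc (((x + y : ℝ) : ℂ) ^ j * cexp (-(((x + y : ℝ)) : ℂ) ^ 2 / 2)) *
        (((x - y : ℝ) : ℂ) ^ k * cexp (-(((x - y : ℝ)) : ℂ) ^ 2 / 2)) * cexp (-2 * I * p * y)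
      = ((x + y : ℝ) : ℂ) ^ j * ((x - y : ℝ) : ℂ) ^ k *
        (cexp (-(((x + y : ℝ)) : ℂ) ^ 2 / 2) * cexp (-(((x - y : ℝ)) : ℂ) ^ 2 / 2) *
          cexp (-2 * I * p * y)) := by ring
    _ = _ := by rw [e]; push_cast; ring

lemma wig_00 (x p : ℝ) : wig (g 0) (g 0) x p =
    (1 / (Real.pi : ℂ)) * cexp (-(x : ℂ) ^ 2) * mo 0 p := by
  rw [wig_g]
  simp only [pow_zero, one_mul]
  rfl

lemma wig_11 (x p : ℝ) : wig (g 1) (g 1) x p =
    (1 / (Real.pi : ℂ)) * cexp (-(x : ℂ) ^ 2) * ((x : ℂ) ^ 2 * mo 0 p - mo 2 p) := by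
  rw [wig_g]
  congr 1
  unfold mo
  rw [← integral_const_mul, ← integral_sub ((integrable_mf 0 p).const_mul _) (integrable_mf 2 p)]
  refine integral_congr_ae (Filter.Eventually.of_forall fun y => ?_)
  simp only [mf]
  ring

lemma wig_20 (x p : ℝ) : wig (g 2) (g 0) x p =
    (1 / (Real.pi : ℂ)) * cexp (-(x : ℂ) ^ 2) *
      ((x : ℂ) ^ 2 * mo 0 p + 2 * x * mo 1 p + mo 2 p) := by
  rw [wig_g]
  congr 1
  unfold mo
  have i1 : Integrable (fun y : ℝ => (x : ℂ) ^ 2 * mf 0 p y + 2 * x * mf 1 p y) :=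
    ((integrable_mf 0 p).const_mul _).add ((integrable_mf 1 p).const_mul _)
  rw [← integral_const_mul, ← integral_const_mul,
    ← integral_add ((integrable_mf 0 p).const_mul _) ((integrable_mf 1 p).const_mul _),
    ← integral_add i1 (integrable_mf 2 p)]
  refine integral_congr_ae (Filter.Eventually.of_forall fun y => ?_)
  simp only [mf]
  ring

lemma wig_02 (x p : ℝ) : wig (g 0) (g 2) x p =
    (1 / (Real.pi : ℂ)) * cexp (-(x : ℂ) ^ 2) *
      ((x : ℂ) ^ 2 * mo 0 p - 2 * x * mo 1 p + mo 2 p) := by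
  rw [wig_g]
  congr 1
  unfold mo
  have i1 : Integrable (fun y : ℝ => (x : ℂ) ^ 2 * mf 0 p y - 2 * x * mf 1 p y) :=
    ((integrable_mf 0 p).const_mul _).sub ((integrable_mf 1 p).const_mul _)
  rw [← integral_const_mul, ← integral_const_mul,
    ← integral_sub ((integrable_mf 0 p).const_mul _) ((integrable_mf 1 p).const_mul _),
    ← integral_add i1 (integrable_mf 2 p)]
  refine integral_congr_ae (Filter.Eventually.of_forall fun y => ?_)
  simp only [mf]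
  ring

lemma wig_22 (x p : ℝ) : wig (g 2) (g 2) x p =
    (1 / (Real.pi : ℂ)) * cexp (-(x : ℂ) ^ 2) *
      ((x : ℂ) ^ 4 * mo 0 p - 2 * (x : ℂ) ^ 2 * mo 2 p + mo 4 p) := by
  rw [wig_g]
  congr 1
  unfold mo
  have i1 : Integrable (fun y : ℝ => (x : ℂ) ^ 4 * mf 0 p y - 2 * (x : ℂ) ^ 2 * mf 2 p y) :=
    ((integrable_mf 0 p).const_mul _).sub ((integrable_mf 2 p).const_mul _)
  rw [← integral_const_mul, ← integral_const_mul,
    ← integral_sub ((integrable_mf 0 p).const_mul _) ((integrable_mf 2 p).const_mul _),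
    ← integral_add i1 (integrable_mf 4 p)]
  refine integral_congr_ae (Filter.Eventually.of_forall fun y => ?_)
  simp only [mf]
  ring

/-- The operator `l₁ |g₂ + c g₀⟩⟨g₂ + c g₀| + l₂ |g₁⟩⟨g₁| + l₃ |g₀⟩⟨g₀|`. -/
noncomputable def rho (c l1 l2 l3 : ℝ) : L2 →L[ℂ] L2 :=
  (l1 : ℂ) • rk (g 2 + (c : ℂ) • g 0) + (l2 : ℂ) • rk (g 1) + (l3 : ℂ) • rk (g 0)

lemma isPositive_rho {c l1 l2 l3 : ℝ} (h1 : 0 ≤ l1) (h2 : 0 ≤ l2) (h3 : 0 ≤ l3) :
    (rho c l1 l2 l3).IsPositive := by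
  have e : ∀ {l : ℝ}, 0 ≤ l → (0 : ℂ) ≤ (l : ℂ) := fun h => by exact_mod_cast h
  exact (((isPositive_rk _).smul_of_nonneg (e h1)).add
    ((isPositive_rk _).smul_of_nonneg (e h2))).add ((isPositive_rk _).smul_of_nonneg (e h3))

lemma inner_uu (c : ℝ) : (inner ℂ (g 2 + (c : ℂ) • g 0) (g 2 + (c : ℂ) • g 0) : ℂ) =
    (3 / 4 + c + c ^ 2) * (Real.sqrt Real.pi : ℝ) := by
  simp only [inner_add_left, inner_add_right, inner_smul_left, inner_smul_right, inner_g,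
    Complex.conj_ofReal]
  norm_num [mo_four, mo_two, mo_zero_zero]
  ring

lemma trace_rho {c l1 l2 l3 : ℝ}
    (ht : (l1 * (3 / 4 + c + c ^ 2) + l2 / 2 + l3) * Real.sqrt Real.pi = 1)
    {ι : Type} (b : HilbertBasis ι ℂ L2) :
    HasSum (fun i => (inner ℂ (b i) (rho c l1 l2 l3 (b i)) : ℂ)) 1 := by
  have h := (((hasSum_trace_rk (g 2 + (c : ℂ) • g 0) b).mul_left (l1 : ℂ)).add
    ((hasSum_trace_rk (g 1) b).mul_left (l2 : ℂ))).add
      ((hasSum_trace_rk (g 0) b).mul_left (l3 : ℂ))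
  have e : (fun i => (inner ℂ (b i) (rho c l1 l2 l3 (b i)) : ℂ)) = fun i =>
      (l1 : ℂ) * inner ℂ (b i) (rk (g 2 + (c : ℂ) • g 0) (b i)) +
        (l2 : ℂ) * inner ℂ (b i) (rk (g 1) (b i)) +
        (l3 : ℂ) * inner ℂ (b i) (rk (g 0) (b i)) := by
    ext i
    simp only [rho, add_apply, smul_apply, inner_add_right, inner_smul_right]
  rw [e]
  have e2 : (l1 : ℂ) * (inner ℂ (g 2 + (c : ℂ) • g 0) (g 2 + (c : ℂ) • g 0) : ℂ) +
      (l2 : ℂ) * inner ℂ (g 1) (g 1) + (l3 : ℂ) * inner ℂ (g 0) (g 0) = 1 := by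
    rw [inner_uu, inner_g, inner_g]
    norm_num [mo_two, mo_zero_zero]
    have := congrArg (fun t : ℝ => (t : ℂ)) ht
    push_cast at this
    linear_combination this
  rw [e2] at h
  exact h

/-- The real polynomial in the Wigner function. -/
noncomputable def Qp (c l1 l2 l3 x p : ℝ) : ℝ :=
  l1 * ((x ^ 2 + p ^ 2) ^ 2 - x ^ 2 - 3 * p ^ 2 + 3 / 4 + 2 * c * (x ^ 2 - p ^ 2 + 1 / 2) + c ^ 2) +
    l2 * (x ^ 2 + p ^ 2 - 1 / 2) + l3

lemma isWigner_rho (c l1 l2 l3 : ℝ) : IsWigner (rho c l1 l2 l3) (fun x p =>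
    (((1 / Real.pi) * Real.exp (-x ^ 2) * (Real.sqrt Real.pi * Real.exp (-p ^ 2)) *
      Qp c l1 l2 l3 x p : ℝ) : ℂ)) := by
  have h := (((isWigner_rk (g 2 + (c : ℂ) • g 0)).smul (l1 : ℂ)).add
    ((isWigner_rk (g 1)).smul (l2 : ℂ))).add ((isWigner_rk (g 0)).smul (l3 : ℂ))
  have e : (fun x p : ℝ => (((1 / Real.pi) * Real.exp (-x ^ 2) *
      (Real.sqrt Real.pi * Real.exp (-p ^ 2)) * Qp c l1 l2 l3 x p : ℝ) : ℂ)) =
      fun x p : ℝ => (l1 : ℂ) * wig (g 2 + (c : ℂ) • g 0) (g 2 + (c : ℂ) • g 0) x p +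
        (l2 : ℂ) * wig (g 1) (g 1) x p + (l3 : ℂ) * wig (g 0) (g 0) x p := ?_
  · rw [e]; exact h
  ext x p
  simp only [wig_add_left, wig_add_right, wig_smul_left, wig_smul_right, Complex.conj_ofReal,
    wig_00, wig_11, wig_02, wig_20, wig_22, mo_one, mo_two, mo_four]
  rw [mo_zero]
  unfold Qp
  push_cast
  ring

lemma rho_mem {c l1 l2 l3 : ℝ} (h1 : 0 ≤ l1) (h2 : 0 ≤ l2) (h3 : 0 ≤ l3)
    (ht : (l1 * (3 / 4 + c + c ^ 2) + l2 / 2 + l3) * Real.sqrt Real.pi = 1)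
    (hQ : ∀ x p, 0 ≤ Qp c l1 l2 l3 x p) : rho c l1 l2 l3 ∈ DPlus :=
  ⟨⟨isPositive_rho h1 h2 h3, fun _ b => trace_rho ht b⟩, _, isWigner_rho c l1 l2 l3, fun x p => by
    have := hQ x p
    positivity⟩

/-! ### The beam-splitter state of `(|0⟩ + √2 |2⟩)/√3` and `|0⟩` -/

/-- The constant `1/(3√π)`. -/
noncomputable def kap : ℝ := (3 * Real.sqrt Real.pi)⁻¹

lemma sqrt_pi_pos : 0 < Real.sqrt Real.pi := Real.sqrt_pos.2 Real.pi_pos

lemma kap_pos : 0 < kap := inv_pos.2 (mul_pos three_pos sqrt_pi_pos)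

lemma kap_mul : kap * Real.sqrt Real.pi = 1 / 3 := by
  unfold kap
  have := sqrt_pi_pos.ne'
  field_simp

/-- The beam-splitter state. -/
noncomputable def sig : L2 →L[ℂ] L2 := rho (1 / 2) kap (2 * kap) (kap / 2)

/-- The first perturbed state. -/
noncomputable def sigP : L2 →L[ℂ] L2 :=
  rho (4 / 11) (11 / 10 * kap) (19 / 10 * kap) (299 / 440 * kap)

/-- The second perturbed state. -/
noncomputable def sigM : L2 →L[ℂ] L2 :=
  rho (2 / 3) (9 / 10 * kap) (21 / 10 * kap) (11 / 40 * kap)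

lemma sigP_mem : sigP ∈ DPlus := by
  have hk := kap_pos
  refine rho_mem (by positivity) (by positivity) (by positivity) ?_ ?_
  · have := kap_mul
    linear_combination 3 * this
  · intro x p
    have : Qp (4 / 11) (11 / 10 * kap) (19 / 10 * kap) (299 / 440 * kap) x p =
        kap * (11 / 10 * (x ^ 2 + p ^ 2 - 1) ^ 2 + 38 / 10 * x ^ 2) := by
      unfold Qp; ring
    rw [this]; positivity

lemma sigM_mem : sigM ∈ DPlus := by
  have hk := kap_pos
  refine rho_mem (by positivity) (by positivity) (by positivity) ?_ ?_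
  · have := kap_mul
    linear_combination 3 * this
  · intro x p
    have : Qp (2 / 3) (9 / 10 * kap) (21 / 10 * kap) (11 / 40 * kap) x p =
        kap * (9 / 10 * (x ^ 2 + p ^ 2 - 1) ^ 2 + 42 / 10 * x ^ 2) := by
      unfold Qp; ring
    rw [this]; positivity

lemma sig_mem : sig ∈ DPlus := by
  have hk := kap_pos
  refine rho_mem (by positivity) (by positivity) (by positivity) ?_ ?_
  · have := kap_mul
    linear_combination 3 * this
  · intro x p
    have : Qp (1 / 2) kap (2 * kap) (kap / 2) x p =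
        kap * ((x ^ 2 + p ^ 2 - 1) ^ 2 + 4 * x ^ 2) := by
      unfold Qp; ring
    rw [this]; positivity

lemma rho_apply (c l1 l2 l3 : ℝ) (f : L2) : rho c l1 l2 l3 f =
    ((l1 : ℂ) * (inner ℂ (g 2) f + c * inner ℂ (g 0) f)) • g 2 +
    ((l1 : ℂ) * c * (inner ℂ (g 2) f + c * inner ℂ (g 0) f) + l3 * inner ℂ (g 0) f) • g 0 +
    ((l2 : ℂ) * inner ℂ (g 1) f) • g 1 := by
  simp only [rho, add_apply, smul_apply, rk_apply, inner_add_left, inner_smul_left,
    Complex.conj_ofReal]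
  module

lemma sig_eq : sig = (1 / 2 : ℝ) • sigP + (1 / 2 : ℝ) • sigM := by
  ext1 f
  rw [add_apply, smul_apply, smul_apply, sig, sigP, sigM, rho_apply, rho_apply, rho_apply]
  push_cast
  module

lemma sigP_ne_sigM : sigP ≠ sigM := by
  intro h
  have h1 : (inner ℂ (g 1) (sigP (g 1)) : ℂ) = inner ℂ (g 1) (sigM (g 1)) := by rw [h]
  rw [sigP, sigM, rho_apply, rho_apply] at h1
  simp only [inner_add_right, inner_smul_right, inner_g] at h1
  have m1 : mo 1 0 = 0 := by rw [mo_one]; simp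
  have m3 : mo 3 0 = 0 := by rw [mo_three]; simp
  have m2 : mo 2 0 = (1 / 2 : ℂ) * (Real.sqrt Real.pi : ℝ) := by rw [mo_two, mo_zero_zero]; simp
  norm_num [m1, m2, m3] at h1
  rcases h1 with h1 | h1
  · exact absurd h1 kap_pos.ne'
  · have := Real.pi_pos
    exact absurd h1 (by positivity)

/-- The Fock-bounded pure state `(|0⟩ + √2 |2⟩)/√3`. -/
noncomputable def psi : L2 :=
  ((1 / Real.sqrt 3 : ℝ) : ℂ) • fock 0 + ((Real.sqrt 2 / Real.sqrt 3 : ℝ) : ℂ) • fock 2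

lemma fock_zero : fock 0 = (((Real.sqrt (Real.sqrt Real.pi))⁻¹ : ℝ) : ℂ) • g 0 := by
  apply Lp.ext
  filter_upwards [(memLp_fockFun 0).coeFn_toLp, g_ae 0,
    Lp.coeFn_smul (((Real.sqrt (Real.sqrt Real.pi))⁻¹ : ℝ) : ℂ) (g 0)] with x h1 h2 h3
  rw [fock, h1, h3, Pi.smul_apply, h2, smul_eq_mul]
  unfold fockFun
  simp

lemma fock_two : fock 2 = (((Real.sqrt (2 * Real.sqrt Real.pi))⁻¹ : ℝ) : ℂ) •
    ((2 : ℂ) • g 2 - g 0) := by
  apply Lp.ext
  filter_upwards [(memLp_fockFun 2).coeFn_toLp, g_ae 0, g_ae 2,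
    Lp.coeFn_smul (((Real.sqrt (2 * Real.sqrt Real.pi))⁻¹ : ℝ) : ℂ) ((2 : ℂ) • g 2 - g 0),
    Lp.coeFn_sub ((2 : ℂ) • g 2) (g 0), Lp.coeFn_smul (2 : ℂ) (g 2)] with x h1 h2 h3 h4 h5 h6
  rw [fock, h1, h4, Pi.smul_apply, h5, Pi.sub_apply, h6, Pi.smul_apply, h2, h3, smul_eq_mul,
    smul_eq_mul]
  have hH : Polynomial.hermite 2 = Polynomial.X ^ 2 - 1 := by
    rw [Polynomial.hermite_succ, Polynomial.hermite_one, Polynomial.derivative_X]
    ring
  have hs : Real.sqrt 2 ^ 2 = 2 := Real.sq_sqrt (by norm_num)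
  have e1 : (Polynomial.aeval (Real.sqrt 2 * x) (Polynomial.hermite 2) : ℝ) = 2 * x ^ 2 - 1 := by
    rw [hH, map_sub, map_pow, Polynomial.aeval_X, map_one, mul_pow, hs]
  unfold fockFun
  rw [e1]
  have e2 : ((Nat.factorial 2 : ℕ) : ℝ) = 2 := by norm_num [Nat.factorial]
  rw [e2]
  unfold gf
  push_cast
  ring

lemma psi_eq : psi = ((2 / (Real.sqrt 3 * Real.sqrt (Real.sqrt Real.pi)) : ℝ) : ℂ) • g 2 := by
  have h3 : Real.sqrt 3 ≠ 0 := (Real.sqrt_pos.2 three_pos).ne'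
  have h2 : Real.sqrt 2 ≠ 0 := (Real.sqrt_pos.2 two_pos).ne'
  have hr : Real.sqrt (Real.sqrt Real.pi) ≠ 0 := (Real.sqrt_pos.2 sqrt_pi_pos).ne'
  unfold psi
  rw [fock_zero, fock_two, Real.sqrt_mul two_pos.le]
  have e1 : (1 / Real.sqrt 3) * (Real.sqrt (Real.sqrt Real.pi))⁻¹ =
      (Real.sqrt 2 / Real.sqrt 3) * (Real.sqrt 2 * Real.sqrt (Real.sqrt Real.pi))⁻¹ := by
    field_simp
  have e2 : 2 / (Real.sqrt 3 * Real.sqrt (Real.sqrt Real.pi)) =
      (Real.sqrt 2 / Real.sqrt 3) * (Real.sqrt 2 * Real.sqrt (Real.sqrt Real.pi))⁻¹ * 2 := by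
    field_simp
  rw [smul_smul, smul_smul, ← ofReal_mul, ← ofReal_mul, e1, e2]
  push_cast
  module

lemma norm_g_sq (k : ℕ) : ((‖g k‖ ^ 2 : ℝ) : ℂ) = mo (k + k) 0 := by
  rw [← inner_g, inner_self_eq_norm_sq_to_K]
  push_cast
  rfl

lemma norm_psi : ‖psi‖ = 1 := by
  have h : ‖psi‖ ^ 2 = 1 := by
    have h1 := norm_g_sq 2
    rw [mo_four, mo_zero_zero] at h1
    have h2 : ‖g 2‖ ^ 2 = 3 / 4 * Real.sqrt Real.pi := by
      have : ((‖g 2‖ ^ 2 : ℝ) : ℂ) = ((3 / 4 * Real.sqrt Real.pi : ℝ) : ℂ) := by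
        rw [h1]; push_cast; ring
      exact_mod_cast this
    rw [psi_eq, norm_smul, Complex.norm_real, Real.norm_of_nonneg (by positivity), mul_pow, h2,
      div_pow, mul_pow, Real.sq_sqrt three_pos.le, Real.sq_sqrt sqrt_pi_pos.le]
    have := sqrt_pi_pos.ne'
    field_simp
    norm_num
  nlinarith [norm_nonneg psi]

lemma norm_fock_zero : ‖fock 0‖ = 1 := by
  have h : ‖fock 0‖ ^ 2 = 1 := by
    have h1 := norm_g_sq 0
    rw [mo_zero_zero] at h1
    have h2 : ‖g 0‖ ^ 2 = Real.sqrt Real.pi := by exact_mod_cast h1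
    rw [fock_zero, norm_smul, Complex.norm_real, Real.norm_of_nonneg (by positivity), mul_pow, h2,
      inv_pow, Real.sq_sqrt sqrt_pi_pos.le]
    have := sqrt_pi_pos.ne'
    field_simp
  nlinarith [norm_nonneg (fock 0)]

lemma fockBounded_fock (n : ℕ) : FockBounded (fock n) := Submodule.subset_span ⟨n, rfl⟩

lemma fockBounded_psi : FockBounded psi :=
  Submodule.add_mem _ (Submodule.smul_mem _ _ (fockBounded_fock 0))
    (Submodule.smul_mem _ _ (fockBounded_fock 2))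

lemma integrable_conj_mul (f : L2) (k : ℕ) :
    Integrable (fun x : ℝ => starRingEnd ℂ (f x) * gf k x) ∧
      ∫ x : ℝ, starRingEnd ℂ (f x) * gf k x = inner ℂ f (g k) := by
  have h1 := MeasureTheory.L2.integrable_inner (𝕜 := ℂ) f (g k)
  have h2 : (fun x : ℝ => (inner ℂ (f x) ((g k : L2) x) : ℂ)) =ᵐ[volume]
      fun x => starRingEnd ℂ (f x) * gf k x := by
    filter_upwards [g_ae k] with x hx
    rw [RCLike.inner_apply', hx]
  refine ⟨h1.congr h2, ?_⟩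
  rw [MeasureTheory.L2.inner_def]
  exact (integral_congr_ae h2).symm

lemma ae_comp_affine {u v : ℝ → ℂ} (h : u =ᵐ[volume] v) (c : ℝ) :
    (fun x : ℝ => u ((x + c) / Real.sqrt 2)) =ᵐ[volume] fun x => v ((x + c) / Real.sqrt 2) := by
  have h2 : (Real.sqrt 2)⁻¹ ≠ 0 := inv_ne_zero (Real.sqrt_pos.2 two_pos).ne'
  have q1 : Measure.QuasiMeasurePreserving (fun x : ℝ => (Real.sqrt 2)⁻¹ • x) volume volume :=
    Measure.quasiMeasurePreserving_smul volume h2
  have q2 : Measure.QuasiMeasurePreserving (fun x : ℝ => x + c) volume volume :=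
    (measurePreserving_add_right volume c).quasiMeasurePreserving
  have q := (q1.comp q2).ae_eq_comp h
  filter_upwards [q] with x hx
  simp only [Function.comp_apply, smul_eq_mul] at hx
  have e : (x + c) / Real.sqrt 2 = (Real.sqrt 2)⁻¹ * (x + c) := by rw [div_eq_inv_mul]
  rw [e]; exact hx

/-- The constant `1/(√3 √π)`. -/
noncomputable def Cc : ℝ := (Real.sqrt 3 * Real.sqrt Real.pi)⁻¹

lemma outAmp_ae (s : ℝ) : ∀ᵐ x : ℝ, outAmp psi (fock 0) x s =
    (Cc : ℂ) * cexp (-(s : ℂ) ^ 2 / 2) * (gf 2 x - 2 * s * gf 1 x + s ^ 2 * gf 0 x) := by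
  have h1 : (psi : ℝ → ℂ) =ᵐ[volume] fun x =>
      ((2 / (Real.sqrt 3 * Real.sqrt (Real.sqrt Real.pi)) : ℝ) : ℂ) * gf 2 x := by
    rw [psi_eq]
    filter_upwards [Lp.coeFn_smul
      ((2 / (Real.sqrt 3 * Real.sqrt (Real.sqrt Real.pi)) : ℝ) : ℂ) (g 2), g_ae 2] with x hx hx'
    rw [hx, Pi.smul_apply, hx', smul_eq_mul]
  have h2 : (fock 0 : ℝ → ℂ) =ᵐ[volume] fun x =>
      (((Real.sqrt (Real.sqrt Real.pi))⁻¹ : ℝ) : ℂ) * gf 0 x := by
    rw [fock_zero]
    filter_upwards [Lp.coeFn_smul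
      (((Real.sqrt (Real.sqrt Real.pi))⁻¹ : ℝ) : ℂ) (g 0), g_ae 0] with x hx hx'
    rw [hx, Pi.smul_apply, hx', smul_eq_mul]
  filter_upwards [ae_comp_affine h1 (-s), ae_comp_affine h2 s] with x h3 h4
  unfold outAmp
  rw [← sub_eq_add_neg] at h3
  rw [h3, h4]
  have hs : ((Real.sqrt 2 : ℝ) : ℂ) ^ 2 = 2 := by
    rw [← ofReal_pow, Real.sq_sqrt two_pos.le]; norm_num
  have hr : Real.sqrt (Real.sqrt Real.pi) ^ 2 = Real.sqrt Real.pi := Real.sq_sqrt sqrt_pi_pos.le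
  have h3' : Real.sqrt 3 ≠ 0 := (Real.sqrt_pos.2 three_pos).ne'
  have hr' : Real.sqrt (Real.sqrt Real.pi) ≠ 0 := (Real.sqrt_pos.2 sqrt_pi_pos).ne'
  have hC : (2 / (Real.sqrt 3 * Real.sqrt (Real.sqrt Real.pi))) *
      (Real.sqrt (Real.sqrt Real.pi))⁻¹ / 2 = Cc := by
    have key : ∀ a r q : ℝ, r ≠ 0 → a ≠ 0 → r ^ 2 = q → 2 / (a * r) * r⁻¹ / 2 = (a * q)⁻¹ := by
      intro a r q h1 h2 h3
      subst h3
      field_simp
    exact key _ _ _ hr' h3' hr
  rw [← hC]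
  have hexp : cexp (-((((x - s) / Real.sqrt 2 : ℝ)) : ℂ) ^ 2 / 2) *
      cexp (-((((x + s) / Real.sqrt 2 : ℝ)) : ℂ) ^ 2 / 2) =
      cexp (-(s : ℂ) ^ 2 / 2) * cexp (-(x : ℂ) ^ 2 / 2) := by
    rw [← Complex.exp_add, ← Complex.exp_add]
    congr 1
    push_cast
    rw [div_pow, div_pow, hs]
    ring
  unfold gf
  calc _ = ((2 / (Real.sqrt 3 * Real.sqrt (Real.sqrt Real.pi)) : ℝ) : ℂ) *
        (((Real.sqrt (Real.sqrt Real.pi))⁻¹ : ℝ) : ℂ) * ((((x - s) / Real.sqrt 2 : ℝ)) : ℂ) ^ 2 *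
        (cexp (-((((x - s) / Real.sqrt 2 : ℝ)) : ℂ) ^ 2 / 2) *
      cexp (-((((x + s) / Real.sqrt 2 : ℝ)) : ℂ) ^ 2 / 2)) := by ring
    _ = _ := by
      rw [hexp]
      push_cast
      rw [div_pow, hs]
      ring

lemma inner_integral (f : L2) (s : ℝ) :
    ∫ x : ℝ, starRingEnd ℂ (f x) * outAmp psi (fock 0) x s =
      (Cc : ℂ) * cexp (-(s : ℂ) ^ 2 / 2) *
        (inner ℂ f (g 2) - 2 * s * inner ℂ f (g 1) + s ^ 2 * inner ℂ f (g 0)) := by
  obtain ⟨i0, e0⟩ := integrable_conj_mul f 0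
  obtain ⟨i1, e1⟩ := integrable_conj_mul f 1
  obtain ⟨i2, e2⟩ := integrable_conj_mul f 2
  have h : ∫ x : ℝ, starRingEnd ℂ (f x) * outAmp psi (fock 0) x s =
      ∫ x : ℝ, (Cc : ℂ) * cexp (-(s : ℂ) ^ 2 / 2) * (starRingEnd ℂ (f x) * gf 2 x -
        2 * s * (starRingEnd ℂ (f x) * gf 1 x) + s ^ 2 * (starRingEnd ℂ (f x) * gf 0 x)) := by
    refine integral_congr_ae ?_
    filter_upwards [outAmp_ae s] with x hx
    rw [hx]; ring
  have i3 : Integrable (fun x : ℝ => starRingEnd ℂ (f x) * gf 2 x -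
      2 * s * (starRingEnd ℂ (f x) * gf 1 x)) := i2.sub (i1.const_mul _)
  rw [h, integral_const_mul, integral_add i3 (i0.const_mul _), integral_sub i2 (i1.const_mul _),
    integral_const_mul, integral_const_mul, e0, e1, e2]

lemma isBeamSplitter_sig : IsBeamSplitterState psi (fock 0) sig := by
  intro f h
  simp only [inner_integral]
  set F0 : ℂ := inner ℂ f (g 0)
  set F1 : ℂ := inner ℂ f (g 1)
  set F2 : ℂ := inner ℂ f (g 2)
  have hG : ∀ k, starRingEnd ℂ (inner ℂ h (g k) : ℂ) = inner ℂ (g k) h := fun k =>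
    inner_conj_symm _ _
  set G0 : ℂ := inner ℂ (g 0) h with hG0
  set G1 : ℂ := inner ℂ (g 1) h with hG1
  set G2 : ℂ := inner ℂ (g 2) h with hG2
  set a : ℕ → ℂ := fun k => if k = 0 then F2 * G2 else if k = 1 then -2 * (F2 * G1 + F1 * G2)
    else if k = 2 then F2 * G0 + F0 * G2 + 4 * F1 * G1 else if k = 3 then -2 * (F1 * G0 + F0 * G1)
    else F0 * G0 with ha
  have hint : (fun s : ℝ => (Cc : ℂ) * cexp (-(s : ℂ) ^ 2 / 2) *
        (F2 - 2 * s * F1 + s ^ 2 * F0) *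
      starRingEnd ℂ ((Cc : ℂ) * cexp (-(s : ℂ) ^ 2 / 2) *
        (inner ℂ h (g 2) - 2 * s * inner ℂ h (g 1) + s ^ 2 * inner ℂ h (g 0)))) =
      fun s : ℝ => ∑ k ∈ Finset.range 5, ((Cc : ℂ) ^ 2 * a k) * mf k 0 s := by
    ext s
    have e1 : starRingEnd ℂ (cexp (-(s : ℂ) ^ 2 / 2)) = cexp (-(s : ℂ) ^ 2 / 2) := by
      have := gf_conj 0 s
      unfold gf at this
      simpa using this
    have e2 : cexp (-(s : ℂ) ^ 2 - 2 * I * (0 : ℝ) * s) =
        cexp (-(s : ℂ) ^ 2 / 2) * cexp (-(s : ℂ) ^ 2 / 2) := by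
      rw [← Complex.exp_add]; congr 1; push_cast; ring
    simp only [map_mul, map_add, map_sub, map_pow, Complex.conj_ofReal, e1, hG, map_ofNat]
    rw [← hG0, ← hG1, ← hG2]
    simp only [Finset.sum_range_succ, Finset.sum_range_zero, mf, e2, ha]
    norm_num
    ring
  rw [hint, integral_finsetSum _ (fun k _ => (integrable_mf k 0).const_mul _)]
  simp only [integral_const_mul]
  change _ = ∑ k ∈ Finset.range 5, (Cc : ℂ) ^ 2 * a k * mo k 0
  have m0 : mo 0 0 = (Real.sqrt Real.pi : ℝ) := mo_zero_zero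
  have m1 : mo 1 0 = 0 := by rw [mo_one]; simp
  have m3 : mo 3 0 = 0 := by rw [mo_three]; simp
  have m2 : mo 2 0 = (1 / 2 : ℂ) * (Real.sqrt Real.pi : ℝ) := by rw [mo_two, mo_zero_zero]; simp
  have m4 : mo 4 0 = (3 / 4 : ℂ) * (Real.sqrt Real.pi : ℝ) := by rw [mo_four, mo_zero_zero]; simp
  simp only [Finset.sum_range_succ, Finset.sum_range_zero, ha, m0, m1, m2, m3, m4]
  rw [sig, rho_apply]
  simp only [inner_add_right, inner_smul_right]
  rw [← hG0, ← hG1, ← hG2]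
  have hC : (Cc : ℂ) ^ 2 * (Real.sqrt Real.pi : ℝ) = (kap : ℂ) := by
    rw [← ofReal_pow, ← ofReal_mul]
    congr 1
    unfold Cc kap
    rw [inv_pow, mul_pow, Real.sq_sqrt three_pos.le]
    have := sqrt_pi_pos.ne'
    field_simp
  norm_num
  rw [← hC]
  ring

lemma beamSplitter_unique {ψ φ : L2} {σ σ' : L2 →L[ℂ] L2} (h : IsBeamSplitterState ψ φ σ)
    (h' : IsBeamSplitterState ψ φ σ') : σ = σ' := by
  ext1 f
  refine ext_inner_left ℂ fun v => ?_
  rw [h v f, h' v f]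

/-- **Main result.** The pure states `|ψ⟩ = (|0⟩ + √2 |2⟩)/√3` and `|φ⟩ = |0⟩` are Fock-bounded,
their beam-splitter state `σ(ψ,φ)` (the unique operator with the defining property) lies in `𝒟₊`,
and it is not an extreme point of `𝒟₊`. -/
theorem result :
    ‖psi‖ = 1 ∧ ‖fock 0‖ = 1 ∧ FockBounded psi ∧ FockBounded (fock 0) ∧
    (∃ σ : L2 →L[ℂ] L2, IsBeamSplitterState psi (fock 0) σ) ∧
    ∀ σ : L2 →L[ℂ] L2, IsBeamSplitterState psi (fock 0) σ →
      σ ∈ DPlus ∧ σ ∉ DPlus.extremePoints ℝ := by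
  refine ⟨norm_psi, norm_fock_zero, fockBounded_psi, fockBounded_fock 0,
    ⟨sig, isBeamSplitter_sig⟩, fun σ hσ => ?_⟩
  rw [beamSplitter_unique hσ isBeamSplitter_sig]
  refine ⟨sig_mem, fun hext => ?_⟩
  rw [mem_extremePoints] at hext
  have h := hext.2 sigP sigP_mem sigM sigM_mem ⟨1 / 2, 1 / 2, by norm_num, by norm_num,
    by norm_num, sig_eq.symm⟩
  exact sigP_ne_sigM (h.1.trans h.2.symm)

end Pool.Agent.Results.MP_bdb089_mp.NotExtreme
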